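import Pool.Agent.Lib.MP_689e73_mp.PV

open Pool.Agent.Lib.MP_689e73_mp

namespace Pool.Agent.Results.MP_689e73_mp.TFForce

/-- The Thomas-Fermi electronic energy is continuously differentiable in the positions of the
point nuclei, and its gradient is given by both force formulas. -/
theorem result (k : ℕ) (z : Fin k → ℝ) (hz : ∀ i, 0 < z i) (γ : ℝ) (hγ : 0 < γ)
    (lam : ℝ) (hlam : 0 < lam) (hlamZ : lam ≤ ∑ i, z i) :
    ContDiffOn ℝ 1 (elec γ lam z) (Omega k) ∧
    ∀ R ∈ Omega k, (∃ ρ, IsMinimiser γ lam z R ρ) ∧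
      ∀ ρ, IsMinimiser γ lam z R ρ → ∀ i, ∃ F G : E3,
        IsPVForce ρ (R i) F ∧ IsGradientLimit (corrected γ (z i) ρ (R i)) (R i) G ∧
        HasGradientAt (fun y => elec γ lam z (Function.update R i y)) (-z i • F) (R i) ∧
        -z i • F = -z i • G :=
  main k z hz γ hγ lam hlam hlamZ

end Pool.Agent.Results.MP_689e73_mp.TFForce
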